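import Pool.Agent.H67.EF.Main

/-!
# The powers of `exp (exp 1)` and explicit families of numbers close to one

Let `a₁ ≠ 0`, `a₂`, `a₃` be integers of absolute value at most `H`, let `1 ≤ k ≤ H` and let
`b ≥ exp (exp ((4 * H) ^ 61))` be an integer. Then `(exp (exp 1)) ^ k` is not the `n`-th power,
for any integer `n`, of a real number `x` which agrees with `1 + a₁ / b + a₂ / b ^ 2 + a₃ / b ^ 3`
up to an error of at most `1 / (b ^ 3 * (log b) ^ 5)`.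
-/

set_option autoImplicit false

namespace Pool.Agent.Results.MP_58ae59_nt.EffectiveFamilies

/-- for all integers `n` the number `(e ^ e) ^ k` is not the `n`-th power of a number `x` with
`|x - (1 + a₁ / b + a₂ / b ^ 2 + a₃ / b ^ 3)| ≤ 1 / (b ^ 3 * (log b) ^ 5)`. -/
theorem result : ∀ (H b k : ℕ) (n a₁ a₂ a₃ : ℤ) (x : ℝ),
    a₁ ≠ 0 → |a₁| ≤ H → |a₂| ≤ H → |a₃| ≤ H → 1 ≤ k → k ≤ H →
    Real.exp (Real.exp ((4 * (H : ℝ)) ^ 61)) ≤ b →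
    |x - (1 + (a₁ : ℝ) / b + (a₂ : ℝ) / b ^ 2 + (a₃ : ℝ) / b ^ 3)| ≤
      1 / ((b : ℝ) ^ 3 * (Real.log b) ^ 5) →
    Real.exp (Real.exp 1) ^ k ≠ x ^ n :=
  fun H b k n a₁ a₂ a₃ x h₁ ha₁ ha₂ ha₃ hk hkH hb hx =>
    H67.EF.effective H b k n a₁ a₂ a₃ x h₁ ha₁ ha₂ ha₃ hk hkH hb hx

end Pool.Agent.Results.MP_58ae59_nt.EffectiveFamilies
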