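import Pool.Agent.H11.KT.Main

/-!
# MP_0b603e_al: uniform ellipticity in all finite soluble groups

Let `w` be a forcing word, for example `⁅y, x⁆ c(x y x⁻¹, .., x ^ m y x⁻ᵐ)` with `c` in the derived
group of the free group with `m` generators. Then the width of `w` is bounded by a function of `ρ`
and `d` in all finite groups which are generated by `d` elements and have a soluble normal subgroup
of index at most `ρ`.
-/

set_option autoImplicit false

namespace Pool.Agent.Results.MP_0b603e_al.SolubleUniform

open Pool.Agent.H11.KT

theorem result :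
    ∀ (r : ℕ) (w : FreeGroup (Fin r)), ForcingWord w → ∀ ρ d : ℕ, ∃ K : ℕ,
      ∀ (G : Type) [Group G] [Finite G],
        (∃ S : Subgroup G, S.Normal ∧ Group.IsSolvable S ∧ S.index ≤ ρ) →
        (∃ s : Finset G, s.card ≤ d ∧ Subgroup.closure (s : Set G) = ⊤) →
        ∀ g ∈ Subgroup.closure (Set.range (fun f : Fin r → G => FreeGroup.lift f w)),
          ∃ l : List G, l.length ≤ K ∧
            (∀ x ∈ l, x ∈ Set.range (fun f : Fin r → G => FreeGroup.lift f w) ∨
              x⁻¹ ∈ Set.range (fun f : Fin r → G => FreeGroup.lift f w)) ∧
            l.prod = g := by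
  exact main_widthA

end Pool.Agent.Results.MP_0b603e_al.SolubleUniform
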